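import Mathlib
import Pool.Agent.H59.MOFin

set_option autoImplicit false

namespace Pool.Agent.Results.MP_768c9c_nt.FalseUnderRH

open Finset Filter Topology

/-- Either the Riemann hypothesis fails, or there is a CMO function whose partial sums are
`o(x ^ (-a))` for some `a > 1/2`. -/
theorem result : ¬ RiemannHypothesis ∨ ∃ f : ℕ → ℂ, f 1 = 1 ∧
    (∀ m n : ℕ, 0 < m → 0 < n → f (m * n) = f m * f n) ∧
    Tendsto (fun N : ℕ => ∑ n ∈ Finset.Icc 1 N, f n) atTop (𝓝 0) ∧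
    ∃ a : ℝ, 1 / 2 < a ∧
      Tendsto (fun x : ℝ => x ^ a * ‖∑ n ∈ Finset.Icc 1 ⌊x⌋₊, f n‖) atTop (𝓝 0) := by
  by_cases hRH : RiemannHypothesis
  · have h0 : Pool.Agent.H59.Zt.RH := by
      intro s h1 h2 h3
      have h4 := hRH s h3 (by
        rintro ⟨n, rfl⟩
        have h5 : (0 : ℝ) ≤ n := Nat.cast_nonneg n
        simp at h1
        linarith) (by rintro rfl; simp at h2)
      linarith
    obtain ⟨f, h1, h2, -, a, h4, h5⟩ := Pool.Agent.H59.MO.rh_complex h0
    obtain ⟨t1, t2⟩ := Pool.Agent.H59.MO.lim_of_bound f 2 a ((1 / 2 + a) / 2) (by linarith)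
      (by linarith) h5
    exact Or.inr ⟨f, h1, h2, t1, (1 / 2 + a) / 2, by linarith, t2⟩
  · exact Or.inl hRH

end Pool.Agent.Results.MP_768c9c_nt.FalseUnderRH
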